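import Pool.Agent.H29.SX.ANB

set_option autoImplicit false

/-!
# MP_c65535_nt, the sharp exponent: row COR of the board `shx_modules`
-/

namespace Pool.Agent.H4.SX

open NumberField Height Finset Polynomial Pool.Agent.H24.RD Pool.Agent.H23.RDD Pool.Agent.H29.RQ
open Pool.Agent.H29.SX

section

variable {F Ω : Type} [Field F] [Field Ω] [Algebra F Ω]

theorem pt_zero {M : Type} [Field M] {r : ℕ} (γ : Fin r → M) (β : M) : pt γ β 0 = 1 := by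
  unfold pt
  rw [Pi.zero_apply, zpow_zero, one_mul]
  exact Finset.prod_eq_one fun i _ => by rw [Pi.zero_apply, zpow_zero]

theorem pt_add {M : Type} [Field M] {r : ℕ} {γ : Fin r → M} {β : M} (hγ : ∀ i, γ i ≠ 0)
    (hβ : β ≠ 0) (a b : Fin (r + 1) → ℤ) : pt γ β (a + b) = pt γ β a * pt γ β b := by
  unfold pt
  rw [Pi.add_apply, zpow_add₀ hβ]
  have h1 : ∏ i, γ i ^ ((a + b) i.succ) = (∏ i, γ i ^ (a i.succ)) * ∏ i, γ i ^ (b i.succ) := by
    rw [← Finset.prod_mul_distrib]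
    exact Finset.prod_congr rfl fun i _ => by rw [Pi.add_apply, zpow_add₀ (hγ i)]
  rw [h1]
  ring

theorem pt_ne {M : Type} [Field M] {r : ℕ} {γ : Fin r → M} {β : M} (hγ : ∀ i, γ i ≠ 0)
    (hβ : β ≠ 0) (a : Fin (r + 1) → ℤ) : pt γ β a ≠ 0 := by
  unfold pt
  exact mul_ne_zero (zpow_ne_zero _ hβ) (Finset.prod_ne_zero_iff.2 fun i _ => zpow_ne_zero _ (hγ i))

theorem yy_isPt {r : ℕ} {γ : Fin r → F} {β : Ω} (hγ : ∀ i, γ i ≠ 0) (hβ : β ≠ 0)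
    (Φ : Ω ≃ₐ[F] Ω) (Q e0 c : ℕ) : IsPt (yy F Ω Φ Q e0 γ β c) := by
  have hγ' : ∀ i, algebraMap F Ω (γ i) ≠ 0 := fun i => by
    rw [Ne, map_eq_zero]
    exact hγ i
  constructor
  · unfold yy
    rw [pt_zero, map_one, one_pow]
  · intro a b
    unfold yy
    rw [pt_add hγ' hβ, map_mul, mul_pow]

theorem symm_succ (Φ : Ω ≃ₐ[F] Ω) (m : ℕ) (P : Ω) :
    (Φ ^ (m + 1)).symm P = Φ.symm ((Φ ^ m).symm P) := by
  rw [AlgEquiv.symm_apply_eq, pow_succ, AlgEquiv.mul_apply, AlgEquiv.apply_symm_apply,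
    AlgEquiv.apply_symm_apply]

theorem yy_succ {r : ℕ} (γ : Fin r → F) (β : Ω) (Φ : Ω ≃ₐ[F] Ω) (Q e0 c : ℕ)
    (a : Fin (r + 1) → ℤ) :
    yy F Ω Φ Q e0 γ β (c + 1) a = Φ.symm (yy F Ω Φ Q e0 γ β c a ^ Q) := by
  unfold yy
  rw [← add_assoc, symm_succ, map_pow, map_pow, ← pow_mul, ← pow_succ]

theorem KK_stab (τ : Ω ≃ₐ[F] Ω) {z : Ω} (hz : z ∈ KK F Ω) : τ z ∈ KK F Ω := by
  have h1 : KK F Ω ≤ (KK F Ω).comap (τ : Ω →ₐ[F] Ω) := by
    unfold KK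
    rw [IntermediateField.adjoin_le_iff]
    rintro x ⟨n, hn, hx⟩
    change (τ : Ω →ₐ[F] Ω) x ∈ IntermediateField.adjoin F {z : Ω | ∃ n : ℕ, 0 < n ∧ z ^ n = 1}
    apply IntermediateField.subset_adjoin
    refine ⟨n, hn, ?_⟩
    rw [← map_pow, hx, map_one]
  exact h1 hz

/-- the restriction of an automorphism to the field of the roots of unity -/
noncomputable def resK (τ : Ω ≃ₐ[F] Ω) : KK F Ω ≃+* KK F Ω where
  toFun z := ⟨τ z, KK_stab τ z.2⟩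
  invFun z := ⟨τ.symm z, KK_stab τ.symm z.2⟩
  left_inv z := Subtype.ext (τ.symm_apply_apply _)
  right_inv z := Subtype.ext (τ.apply_symm_apply _)
  map_mul' x y := Subtype.ext (map_mul τ _ _)
  map_add' x y := Subtype.ext (map_add τ _ _)

theorem KK_mu [IsAlgClosed Ω] [CharZero Ω] (p : ℕ) (hp : p.Prime) : MuP (KK F Ω) p := by
  intro k
  have : NeZero (p ^ k) := ⟨pow_ne_zero _ hp.ne_zero⟩
  obtain ⟨ζ, hζ⟩ := HasEnoughRootsOfUnity.exists_primitiveRoot Ω (p ^ k)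
  have hmem : ζ ∈ KK F Ω := by
    unfold KK
    apply IntermediateField.subset_adjoin
    exact ⟨p ^ k, pow_pos hp.pos _, hζ.pow_eq_one⟩
  refine ⟨⟨ζ, hmem⟩, ?_⟩
  exact IsPrimitiveRoot.of_map_of_injective (f := (algebraMap (KK F Ω) Ω)) hζ
    (algebraMap (KK F Ω) Ω).injective

/-- an integral power in the group is enough -/
theorem mem_Dv_of_zpow {r : ℕ} {γ : Fin r → F} {z : Ω} (hz : z ≠ 0) {B : ℤ} (hB : B ≠ 0)
    {u : Fin r → ℤ} (h : z ^ B = ∏ i, (algebraMap F Ω (γ i)) ^ u i) : z ∈ Dv F Ω γ := by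
  refine ⟨hz, B.natAbs, Int.natAbs_pos.2 hB, ?_⟩
  rcases Int.natAbs_eq B with h1 | h1
  · refine ⟨u, ?_⟩
    rw [← h, ← zpow_natCast, ← h1]
  · refine ⟨fun i => -u i, ?_⟩
    have h2 : ((B.natAbs : ℕ) : ℤ) = -B := by omega
    rw [← zpow_natCast, h2, zpow_neg, h, ← Finset.prod_inv_distrib]
    exact Finset.prod_congr rfl fun i _ => by rw [zpow_neg]

end

theorem pf_COR (h1 : T_HB) (h2 : T_REL) (h3 : T_SFT) (h4 : T_NRM) (h5 : T_ANA) : T_COR := by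
  classical
  intro F Ω _ _ _ _ _ _ _ p hp r γ hM hγp E hEf hEn hEK f δ h8 hδ hδ1 Φ hΦ β g hβ hg n x hn hgn hx
    X hX1 hX2 hRed hnot s t e0 k e' σ ρ ht hfe hpk hσ hρ S hS hcard
  have : Algebra.IsAlgebraic ℚ Ω := Algebra.IsAlgebraic.trans ℚ F Ω
  obtain ⟨b1, b2, b3, b4, b5, b6, b7⟩ := h1 Ω
  have hγ0 : ∀ i, γ i ≠ 0 := hM.1
  have hγ' : ∀ i, algebraMap F Ω (γ i) ≠ 0 := fun i => by
    rw [Ne, map_eq_zero]
    exact hγ0 i
  have hbg : β * g ≠ 0 := mul_ne_zero hβ hg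
  -- the height is positive
  have hlam : 0 < absLogHeight₁ (β * g) := by
    rcases (b1 (β * g)).lt_or_eq with h | h
    · exact h
    · exfalso
      apply hnot
      obtain ⟨j, hj, hj1⟩ := b7 _ hbg h.symm
      refine ⟨hbg, j, hj, 0, ?_⟩
      rw [hj1]
      exact (Finset.prod_eq_one fun i _ => by rw [Pi.zero_apply, zpow_zero]).symm
  have hH : 1 ≤ Hg F Ω γ := by
    unfold Hg
    have : 0 ≤ ∑ i, absLogHeight₁ (algebraMap F Ω (γ i)) := Finset.sum_nonneg fun i _ => b1 _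
    linarith
  have hnr : (0 : ℝ) < n := by exact_mod_cast hn
  have hξ : ∀ i, 0 ≤ (x i : ℝ) / n ∧ (x i : ℝ) / n ≤ 1 := by
    intro i
    have e1 : (0 : ℝ) ≤ x i := by exact_mod_cast (hx i).1
    have e2 : (x i : ℝ) ≤ n := by exact_mod_cast (hx i).2.le
    exact ⟨div_nonneg e1 hnr.le, (div_le_one hnr).2 e2⟩
  obtain ⟨hNm, hNr⟩ := h4 r (absLogHeight₁ (β * g)) (Hg F Ω γ) (fun i => (x i : ℝ) / n) hlam hH hξ
  have hρ0 : 0 ≤ ρ := by
    refine le_trans ?_ hρ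
    positivity
  -- the relation
  have hCj : Cj F Ω (KK F Ω) X.card ((Φ ^ e0).symm β) := by
    refine ⟨X.image (Φ ^ e0).symm, Finset.card_image_le, ?_⟩
    intro τ hτ
    rw [Finset.mem_image]
    refine ⟨(Φ ^ e0) (τ ((Φ ^ e0).symm β)), ?_, AlgEquiv.symm_apply_apply _ _⟩
    refine hX1 (((Φ ^ e0).symm.trans τ).trans (Φ ^ e0)) ?_
    intro z hz
    change (Φ ^ e0) (τ ((Φ ^ e0).symm z)) = z
    rw [hτ _ (KK_stab (Φ ^ e0).symm (hEK hz)), AlgEquiv.apply_symm_apply]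
  obtain ⟨f0, hf0, hf0S, hf0e⟩ := h2 F Ω (KK F Ω) X.card ((Φ ^ e0).symm β) hCj r γ
    ((p ^ f) ^ e0) S hcard
  have hy0 : ∀ a, yy F Ω Φ (p ^ f) e0 γ β 0 a =
      (pt (fun i => algebraMap F Ω (γ i)) ((Φ ^ e0).symm β) a) ^ ((p ^ f) ^ e0) := by
    intro a
    rw [ANB.yy_eq, add_zero]
  have hrel : ∃ f1 : (Fin (r + 1) → ℤ) →₀ (KK F Ω), f1 ≠ 0 ∧
      Spt (nrm r (absLogHeight₁ (β * g)) (Hg F Ω γ) (fun i => (x i : ℝ) / n)) σ f1 ∧
      ev (KK F Ω) (yy F Ω Φ (p ^ f) e0 γ β 0) f1 = 0 := by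
    refine ⟨f0, hf0, fun a ha => hS a (hf0S a ha), ?_⟩
    rw [funext hy0]
    exact hf0e
  -- no conjugacy
  have hheight : ∀ c a, absLogHeight₁ (yy F Ω Φ (p ^ f) e0 γ β c a) =
      ((p ^ f) ^ (e0 + c) : ℕ) * absLogHeight₁ (pt (fun i => algebraMap F Ω (γ i)) β a) := by
    intro c a
    unfold yy
    rw [b4]
    congr 1
    exact b6 ((Φ ^ (e0 + c)).symm : Ω ≃+* Ω) _
  have hKalg : Algebra.IsAlgebraic (KK F Ω) Ω := Algebra.IsAlgebraic.tower_top (K := F) (KK F Ω)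
  have hKcl : IsAlgClosure (KK F Ω) Ω := ⟨inferInstance, hKalg⟩
  have hKn : Normal (KK F Ω) Ω := IsAlgClosure.normal (KK F Ω) Ω
  have hconj : ∀ (c₁ c₂ : ℕ) (a : Fin (r + 1) → ℤ), c₁ < c₂ → c₂ ≤ s → a ≠ 0 →
      aeval (yy F Ω Φ (p ^ f) e0 γ β c₂ a)
        (minpoly (KK F Ω) (yy F Ω Φ (p ^ f) e0 γ β c₁ a)) ≠ 0 := by
    intro c₁ c₂ a hc _ ha h0
    have hint : IsIntegral (KK F Ω) (yy F Ω Φ (p ^ f) e0 γ β c₁ a) :=
      (Algebra.IsAlgebraic.isAlgebraic _).isIntegral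
    obtain ⟨τ, hτ⟩ := (isConjRoot_of_aeval_eq_zero hint h0).exists_algEquiv
    have e1 := b6 (τ : Ω ≃+* Ω) (yy F Ω Φ (p ^ f) e0 γ β c₂ a)
    have e2 : (τ : Ω ≃+* Ω) (yy F Ω Φ (p ^ f) e0 γ β c₂ a) = yy F Ω Φ (p ^ f) e0 γ β c₁ a := hτ
    rw [e2, hheight, hheight] at e1
    have e3 : ((p ^ f) ^ (e0 + c₁) : ℕ) < (p ^ f) ^ (e0 + c₂) :=
      Nat.pow_lt_pow_right (by omega) (by omega)
    have e4 : (((p ^ f) ^ (e0 + c₁) : ℕ) : ℝ) < (((p ^ f) ^ (e0 + c₂) : ℕ) : ℝ) := by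
      exact_mod_cast e3
    have e5 : absLogHeight₁ (pt (fun i => algebraMap F Ω (γ i)) β a) = 0 := by
      by_contra hne
      have e6 := mul_right_cancel₀ hne e1
      linarith
    obtain ⟨j, hj, hj1⟩ := b7 _ (pt_ne hγ' hβ a) e5
    -- the relation
    have e6 : (β ^ (a 0)) ^ j * ∏ i, ((algebraMap F Ω (γ i)) ^ (a (Fin.succ i))) ^ j = 1 := by
      rw [Finset.prod_pow, ← mul_pow]
      exact hj1
    have e7 : β ^ (a 0 * j) * ∏ i, (algebraMap F Ω (γ i)) ^ (a (Fin.succ i) * j) = 1 := by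
      rw [← e6]
      congr 1
      · rw [← zpow_natCast, ← zpow_mul]
      · exact Finset.prod_congr rfl fun i _ => by rw [← zpow_natCast, ← zpow_mul]
    have hj0 : (j : ℤ) ≠ 0 := by exact_mod_cast hj.ne'
    by_cases ha0 : a 0 = 0
    · rw [ha0, zero_mul, zpow_zero, one_mul] at e7
      have e8 : ∏ i, γ i ^ (a (Fin.succ i) * j) = 1 := by
        apply (algebraMap F Ω).injective
        rw [map_prod, map_one, ← e7]
        exact Finset.prod_congr rfl fun i _ => by rw [map_zpow₀]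
      have e9 := hM.2 _ e8
      apply ha
      funext l
      refine Fin.cases ?_ (fun i => ?_) l
      · exact ha0
      · have e10 := congrFun e9 i
        rw [Pi.zero_apply] at e10 ⊢
        rcases mul_eq_zero.1 e10 with h | h
        · exact h
        · exact absurd h hj0
    · apply hnot
      have hA : a 0 * j * n ≠ 0 := mul_ne_zero (mul_ne_zero ha0 hj0) (by exact_mod_cast hn.ne')
      refine mem_Dv_of_zpow hbg hA (u := fun i => -(a (Fin.succ i) * j * n) + x i * (a 0 * j)) ?_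
      have hne : ∏ i, (algebraMap F Ω (γ i)) ^ (a (Fin.succ i) * j) ≠ 0 :=
        Finset.prod_ne_zero_iff.2 fun i _ => zpow_ne_zero _ (hγ' i)
      have e8 : β ^ (a 0 * j) = ∏ i, (algebraMap F Ω (γ i)) ^ (-(a (Fin.succ i) * j)) := by
        have e9 : ∏ i, (algebraMap F Ω (γ i)) ^ (-(a (Fin.succ i) * j)) =
            (∏ i, (algebraMap F Ω (γ i)) ^ (a (Fin.succ i) * j))⁻¹ := by
          rw [← Finset.prod_inv_distrib]
          exact Finset.prod_congr rfl fun i _ => by rw [zpow_neg]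
        rw [e9]
        exact eq_inv_of_mul_eq_one_left e7
      have e9 : (β * g) ^ (a 0 * j * n) = (β ^ (a 0 * j)) ^ n * (g ^ n) ^ (a 0 * j) := by
        rw [mul_zpow]
        congr 1
        · rw [zpow_mul, zpow_natCast]
        · rw [mul_comm (a 0 * (j : ℤ)) n, zpow_mul, zpow_natCast]
      rw [e9, e8, hgn, ← Finset.prod_pow, ← Finset.prod_zpow, ← Finset.prod_mul_distrib]
      refine Finset.prod_congr rfl fun i _ => ?_
      rw [zpow_add₀ (hγ' i)]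
      congr 1
      · rw [← zpow_natCast, ← zpow_mul]
        congr 1
        ring
      · rw [← zpow_mul]
  obtain ⟨R, d0, r0, nn, hinj, hnn, hr0, hd0, hR, hCols⟩ := h3 (KK F Ω) Ω p hp
    (KK_mu p hp) (Φ.symm : Ω ≃+* Ω) (resK Φ.symm) (fun z => rfl) f (r + 1) s t h8 ht
    (yy F Ω Φ (p ^ f) e0 γ β) (yy_isPt hγ0 hβ Φ _ _ _) (fun c a => yy_succ γ β Φ _ _ c a)
    (nrm r (absLogHeight₁ (β * g)) (Hg F Ω γ) (fun i => (x i : ℝ) / n)) hNm σ ρ hσ hρ hrel hconj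
  refine ⟨R, d0, r0, hr0, hd0, hR, (hNr ρ hρ0).2 R nn hinj hnn, ?_⟩
  exact h5 F Ω p hp r γ hγ0 hγp E hEf hEn hEK f δ hδ hδ1 Φ hΦ β g hβ hg n x hn hgn hx X hX1 hX2
    hRed hlam ρ s t e0 k e' hρ0 hfe hpk R d0 nn hinj hnn hCols

end Pool.Agent.H4.SX
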